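import Pool.Agent.Helper65.Isoptic

/-!
# A compact convex set in the plane with two circular isoptics is a disc

For a compact convex set `S` in the plane and `0 < α < π` let `isoptic S α` be the set of all points
`P` outside `S` at which the angle of sight of `S` is `α`. Let `α₁ ≠ α₂` be two angles such that both
`isoptic S α₁` and `isoptic S α₂` are circles (which are not assumed to be concentric); it suffices
that their closures are circles. Then `S` is a closed disc, and so all isoptics of `S` are circles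
with the same centre. Hence there is no compact convex set with exactly two circular isoptics.

Definitions (`Pool.Agent.Helper65.IsoDefs`):
* `sight S P`: the supremum of the angles `x P y` with `x, y ∈ S`, which is the opening angle of the
  cone with apex `P` formed by the rays from `P` through the points of `S`;
* `isoptic S α`: the points `P` which are not in `S` with `sight S P = α`;
* `IsCircle C`: `C` is a circle of positive radius.
-/

set_option autoImplicit false

open Real Set Metric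

namespace Pool.Agent.Results.MP_08e0ef_gt.TwoCircularIsoptics

open Pool.Agent.Helper65.Iso

theorem disc {S : Set Plane} (hS : IsCompact S) (hconv : Convex ℝ S) {α₁ α₂ : ℝ}
    (h₁ : α₁ ∈ Ioo 0 π) (h₂ : α₂ ∈ Ioo 0 π) (hne : α₁ ≠ α₂)
    (hc₁ : IsCircle (closure (isoptic S α₁))) (hc₂ : IsCircle (closure (isoptic S α₂))) :
    ∃ (c : Plane) (ρ : ℝ), 0 < ρ ∧ S = closedBall c ρ ∧
      ∀ α ∈ Ioo 0 π, isoptic S α = sphere c (ρ / sin (α / 2)) := by
  obtain ⟨c₁, r₁, hr₁, hc₁⟩ := hc₁
  obtain ⟨c₂, r₂, hr₂, hc₂⟩ := hc₂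
  obtain ⟨-, ρ, hρ, hS'⟩ := main hS hconv h₁ h₂ hne hr₁ hr₂ hc₁ hc₂
  refine ⟨c₁, ρ, hρ, hS', fun α hα => ?_⟩
  rw [hS', isoptic_ball c₁ hρ hα.1 hα.2]

theorem ne_two {S : Set Plane} {A : Set ℝ} (hA : A ⊆ Ioo 0 π)
    (h : ∀ α₁ ∈ A, ∀ α₂ ∈ A, α₁ ≠ α₂ → ∃ (c : Plane) (ρ : ℝ), 0 < ρ ∧ S = closedBall c ρ ∧
      ∀ α ∈ Ioo 0 π, isoptic S α = sphere c (ρ / sin (α / 2)))
    (h' : ∀ α ∈ Ioo 0 π, IsCircle (isoptic S α) → α ∈ A) : A.encard ≠ 2 := by
  intro h2
  have hpi := pi_pos
  obtain ⟨a, b, hab, hA2⟩ := Set.encard_eq_two.mp h2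
  obtain ⟨c, ρ, hρ, -, hall⟩ := h a (by simp [hA2]) b (by simp [hA2]) hab
  have hfull : A = Ioo 0 π := by
    refine Subset.antisymm hA fun α hα => h' α hα ⟨c, ρ / sin (α / 2), ?_, hall α hα⟩
    exact div_pos hρ (sin_pos_of_pos_of_lt_pi (by linarith [hα.1]) (by linarith [hα.2]))
  have hinf : A.Infinite := hfull ▸ Set.Ioo_infinite hpi
  exact hinf (hA2 ▸ Set.toFinite {a, b})

/-- (1) No compact convex set `S` in the plane has exactly two circular isoptics: the number of the
`α ∈ (0, π)` for which `isoptic S α` is a circle is not two, and the number of the `α ∈ (0, π)` for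
which the closure of `isoptic S α` is a circle is not two.

(2) If a compact convex set `S` has at least two circular isoptics (the circles may have different
centres, and it suffices that the closures of the isoptics are circles), then `S` is a closed disc of
positive radius `ρ`, with centre `c`, and all its isoptics are circles with centre `c`. -/
theorem result :
    (∀ S : Set (EuclideanSpace ℝ (Fin 2)), IsCompact S → Convex ℝ S →
      {α : ℝ | α ∈ Ioo 0 π ∧ IsCircle (isoptic S α)}.encard ≠ 2 ∧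
      {α : ℝ | α ∈ Ioo 0 π ∧ IsCircle (closure (isoptic S α))}.encard ≠ 2) ∧
    (∀ S : Set (EuclideanSpace ℝ (Fin 2)), IsCompact S → Convex ℝ S →
      ∀ α₁ ∈ Ioo 0 π, ∀ α₂ ∈ Ioo 0 π, α₁ ≠ α₂ →
      IsCircle (closure (isoptic S α₁)) → IsCircle (closure (isoptic S α₂)) →
      ∃ (c : EuclideanSpace ℝ (Fin 2)) (ρ : ℝ), 0 < ρ ∧ S = closedBall c ρ ∧
        ∀ α ∈ Ioo 0 π, isoptic S α = sphere c (ρ / sin (α / 2))) := by
  have hcl : ∀ {C : Set Plane}, IsCircle C → IsCircle (closure C) := by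
    rintro C ⟨c, r, hr, rfl⟩
    exact ⟨c, r, hr, isClosed_sphere.closure_eq⟩
  refine ⟨fun S hS hconv => ⟨?_, ?_⟩, fun S hS hconv α₁ h₁ α₂ h₂ hne hc₁ hc₂ =>
    disc hS hconv h₁ h₂ hne hc₁ hc₂⟩
  · refine ne_two (S := S) (fun α hα => hα.1) ?_ fun α hα h => ⟨hα, h⟩
    intro α₁ h₁ α₂ h₂ hne
    exact disc hS hconv h₁.1 h₂.1 hne (hcl h₁.2) (hcl h₂.2)
  · refine ne_two (S := S) (fun α hα => hα.1) ?_ fun α hα h => ⟨hα, hcl h⟩
    intro α₁ h₁ α₂ h₂ hne
    exact disc hS hconv h₁.1 h₂.1 hne h₁.2 h₂.2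

end Pool.Agent.Results.MP_08e0ef_gt.TwoCircularIsoptics
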